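import Pool.Agent.helper86.OF.SpecM

/-!
# BID: the balance identity (MP_c62920_co, module of:BID)
-/

open scoped BigOperators

namespace Pool.Agent.OF

noncomputable section

open Classical

/-- one side -/
theorem BID_side {V : Type} [Fintype V] (W C : SimpleGraph V) (Y : Finset V) (q f : ℕ)
    (H : ℕ → Finset V) (h : V → ℕ)
    (hW : ∀ v ∈ Y, ∀ w, W.Adj v w → w ∈ Y)
    (deg : ∀ x ∈ Y, dg W x + dg C x + ((Finset.range q).filter fun i => x ∈ H i).card + h x =
      q + f) :
    (ep W Y Y : ℤ) + ∑ x ∈ Y, (dg C x : ℤ) = ∑ i ∈ Finset.range q, ((Y \ H i).card : ℤ) +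
      ∑ x ∈ Y, ((f : ℤ) - h x) := by
  have e1 : (ep W Y Y : ℤ) = ∑ x ∈ Y, (dg W x : ℤ) := by
    unfold ep
    rw [Nat.cast_sum]
    refine Finset.sum_congr rfl fun v hv => ?_
    congr 1
    unfold dg dgs
    congr 1
    ext w
    simp only [Finset.mem_filter, Finset.mem_univ, true_and]
    exact ⟨fun h => h.2, fun h => ⟨hW v hv w h, h⟩⟩
  have e2 : ∑ i ∈ Finset.range q, ((Y \ H i).card : ℤ) =
      ∑ x ∈ Y, ((q : ℤ) - (((Finset.range q).filter fun i => x ∈ H i).card : ℤ)) := by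
    have e3 : ∀ i, ((Y \ H i).card : ℤ) = ∑ x ∈ Y, ((1 : ℤ) - if x ∈ H i then 1 else 0) := by
      intro i
      rw [Finset.sum_sub_distrib, Finset.sum_const, nsmul_eq_mul, mul_one, ← Nat.cast_one,
        ← Nat.cast_zero, Finset.sum_congr rfl
          (fun x _ => (Nat.cast_ite (R := ℤ) (x ∈ H i) 1 0).symm), ← Nat.cast_sum,
        ← Finset.card_filter]
      have h4 : (Y.filter fun x => x ∈ H i).card + (Y.filter fun x => x ∉ H i).card = Y.card :=
        Finset.card_filter_add_card_filter_not _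
      have h5 : Y \ H i = Y.filter fun x => x ∉ H i := by
        ext x
        simp only [Finset.mem_sdiff, Finset.mem_filter]
      rw [h5]
      omega
    rw [Finset.sum_congr rfl fun i _ => e3 i, Finset.sum_comm]
    refine Finset.sum_congr rfl fun x _ => ?_
    rw [Finset.sum_sub_distrib, Finset.sum_const, Finset.card_range, nsmul_eq_mul, mul_one]
    congr 1
    rw [Finset.card_filter]
    push_cast
    rfl
  rw [e1, e2, ← Finset.sum_add_distrib, ← Finset.sum_add_distrib]
  refine Finset.sum_congr rfl fun x hx => ?_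
  have h1 := deg x hx
  have h2 : ((dg W x + dg C x + ((Finset.range q).filter fun i => x ∈ H i).card + h x : ℕ) : ℤ) =
      ((q + f : ℕ) : ℤ) := by rw [h1]
  push_cast at h2
  linarith

/-- the two sums of the cross degrees -/
theorem BID_cross {V : Type} [Fintype V] (C : SimpleGraph V) (P Q : Finset V)
    (h1 : ∀ v ∈ P, ∀ w, C.Adj v w → w ∈ Q) (h2 : ∀ v ∈ Q, ∀ w, C.Adj v w → w ∈ P) :
    ∑ x ∈ P, dg C x = ∑ x ∈ Q, dg C x := by
  have e : ∀ (P Q : Finset V), (∀ v ∈ P, ∀ w, C.Adj v w → w ∈ Q) →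
      ∑ x ∈ P, dg C x = ∑ x ∈ P, ∑ y ∈ Q, if C.Adj x y then 1 else 0 := by
    intro P Q h
    refine Finset.sum_congr rfl fun x hx => ?_
    unfold dg dgs
    rw [← Finset.card_filter]
    congr 1
    ext w
    simp only [Finset.mem_filter, Finset.mem_univ, true_and]
    exact ⟨fun h' => ⟨h x hx w h', h'⟩, fun h => h.2⟩
  rw [e P Q h1, e Q P h2, Finset.sum_comm]
  refine Finset.sum_congr rfl fun x _ => Finset.sum_congr rfl fun y _ => ?_
  by_cases h : C.Adj x y
  · rw [if_pos h, if_pos h.symm]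
  · rw [if_neg h, if_neg (fun h' => h h'.symm)]

theorem BID : BID_stmt := by
  intro V _ W C E0 A X q f H h ε ζ θ U U3 hM
  have hA := BID_side W C (X ∩ A) q f H h
    (by
      intro v hv w hw
      have h1 := hM.wX v w hw
      rw [Finset.mem_inter] at hv ⊢
      exact ⟨h1.2.1, h1.2.2.1 hv.2⟩)
    (fun x hx => hM.deg x (Finset.mem_inter.1 hx).1)
  have hB := BID_side W C (X \ A) q f H h
    (by
      intro v hv w hw
      have h1 := hM.wX v w hw
      rw [Finset.mem_sdiff] at hv ⊢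
      exact ⟨h1.2.1, fun h => hv.2 (h1.2.2.2 h)⟩)
    (fun x hx => hM.deg x (Finset.mem_sdiff.1 hx).1)
  have hC := BID_cross C (X ∩ A) (X \ A)
    (by
      intro v hv w hw
      have h1 := hM.cX v w hw
      rw [Finset.mem_inter] at hv
      rw [Finset.mem_sdiff]
      exact ⟨h1.2.1, fun h => h1.2.2 ⟨fun _ => h, fun _ => hv.2⟩⟩)
    (by
      intro v hv w hw
      have h1 := hM.cX v w hw
      rw [Finset.mem_sdiff] at hv
      rw [Finset.mem_inter]
      refine ⟨h1.2.1, ?_⟩
      by_contra h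
      exact h1.2.2 ⟨fun h' => absurd h' hv.2, fun h' => absurd h' h⟩)
  have hC' : ∑ x ∈ X ∩ A, (dg C x : ℤ) = ∑ x ∈ X \ A, (dg C x : ℤ) := by exact_mod_cast hC
  have hb := hM.bal
  rw [Finset.sum_sub_distrib]
  linarith

end

end Pool.Agent.OF
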