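import Pool.Agent.helper86.OF.SpecB

/-!
# BL7: counting (MP_c62920_co, module of:BL7)
-/

open scoped BigOperators

namespace Pool.Agent.OF

noncomputable section

open Classical

theorem BL7_fc {ι : Type} (s t : Finset ι) (p q : ι → Prop) (d1 : DecidablePred p)
    (d2 : DecidablePred q) (h : ∀ x, (x ∈ s ∧ p x) ↔ (x ∈ t ∧ q x)) :
    (@Finset.filter ι p d1 s).card = (@Finset.filter ι q d2 t).card := by
  congr 1
  ext x
  rw [Finset.mem_filter, Finset.mem_filter]
  exact h x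

/-- The number of vertices of `A` joined to `B` by an edge of colour `κ`. -/
def BL7_mt {V : Type} (G : SimpleGraph V) (c : Sym2 V → ℕ) (A B : Finset V) (κ : ℕ) : ℕ :=
  (A.filter fun v => ∃ w ∈ B, G.Adj v w ∧ c s(v, w) = κ).card

/-- The number of vertices of `W` matched inside `W` is even. -/
theorem BL7_even {V : Type} (G : SimpleGraph V) (D : ℕ) (c : Sym2 V → ℕ)
    (hc : PEC G D c) (W : Finset V) (κ : ℕ) :
    BL7_mt G c W W κ % 2 = 0 := by
  unfold BL7_mt
  set S := W.filter fun v => ∃ w ∈ W, G.Adj v w ∧ c s(v, w) = κ with hS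
  have hex : ∀ a ∈ S, ∃ w, w ∈ W ∧ G.Adj a w ∧ c s(a, w) = κ := fun a ha => by
    obtain ⟨w, h1, h2⟩ := (Finset.mem_filter.1 ha).2
    exact ⟨w, h1, h2⟩
  have hmemW : ∀ a ∈ S, a ∈ W := fun a ha => (Finset.mem_filter.1 ha).1
  choose f hf using hex
  have hg : ∀ a (ha : a ∈ S), f a ha ∈ S := by
    intro a ha
    have h := hf a ha
    refine Finset.mem_filter.2 ⟨h.1, a, hmemW a ha, h.2.1.symm, ?_⟩
    rw [Sym2.eq_swap]
    exact h.2.2
  have h := Finset.sum_involution (s := S) (f := fun _ => (1 : ZMod 2)) f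
    (by intro a ha; decide)
    (by
      intro a ha _ he
      have h := hf a ha
      rw [he] at h
      exact G.loopless.irrefl a h.2.1)
    hg
    (by
      intro a ha
      have h := hf a ha
      have h' := hf _ (hg a ha)
      refine hc.2 _ _ _ h'.2.1 h.2.1.symm ?_
      rw [h'.2.2, Sym2.eq_swap, h.2.2])
  rw [Finset.sum_const, nsmul_eq_mul, mul_one] at h
  have h2 := (ZMod.natCast_eq_zero_iff _ _).1 h
  omega

theorem BL7_le {V : Type} (G : SimpleGraph V) (D : ℕ) (c : Sym2 V → ℕ)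
    (hc : PEC G D c) (A B : Finset V) (κ : ℕ) : BL7_mt G c A B κ ≤ BL7_mt G c B A κ := by
  unfold BL7_mt
  have key : ∀ v ∈ (A.filter fun v => ∃ w ∈ B, G.Adj v w ∧ c s(v, w) = κ),
      ∃ w, w ∈ B ∧ G.Adj v w ∧ c s(v, w) = κ := fun v hv => by
    obtain ⟨w, h1, h2⟩ := (Finset.mem_filter.1 hv).2
    exact ⟨w, h1, h2⟩
  choose f hf using key
  refine Finset.card_le_card_of_injOn
    (fun v => if h : v ∈ (A.filter fun v => ∃ w ∈ B, G.Adj v w ∧ c s(v, w) = κ) then f v h else v)
    ?_ ?_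
  · intro v hv
    have hv' : v ∈ (A.filter fun v => ∃ w ∈ B, G.Adj v w ∧ c s(v, w) = κ) := by simpa using hv
    simp only [hv', dif_pos]
    have h := hf v hv'
    have hvA := (Finset.mem_filter.1 hv').1
    rw [Finset.mem_coe, Finset.mem_filter]
    refine ⟨h.1, v, hvA, h.2.1.symm, ?_⟩
    rw [Sym2.eq_swap]
    exact h.2.2
  · intro v hv v' hv' he
    have hv1 : v ∈ (A.filter fun v => ∃ w ∈ B, G.Adj v w ∧ c s(v, w) = κ) := by simpa using hv
    have hv1' : v' ∈ (A.filter fun v => ∃ w ∈ B, G.Adj v w ∧ c s(v, w) = κ) := by simpa using hv'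
    simp only [hv1, hv1', dif_pos] at he
    have h := hf v hv1
    have h' := hf v' hv1'
    rw [← he] at h'
    refine hc.2 (f v hv1) v v' h.2.1.symm h'.2.1.symm ?_
    rw [Sym2.eq_swap, h.2.2, Sym2.eq_swap, h'.2.2]

theorem BL7_bij {V : Type} (G : SimpleGraph V) (D : ℕ) (c : Sym2 V → ℕ)
    (hc : PEC G D c) (A B : Finset V) (κ : ℕ) : BL7_mt G c A B κ = BL7_mt G c B A κ :=
  le_antisymm (BL7_le G D c hc A B κ) (BL7_le G D c hc B A κ)

theorem BL7_split {V : Type} [Fintype V] (G : SimpleGraph V) (D : ℕ) (c : Sym2 V → ℕ)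
    (hc : PEC G D c) (W : Finset V) (κ : ℕ) :
    nX G c W κ = BL7_mt G c W W κ + BL7_mt G c W Wᶜ κ := by
  unfold nX BL7_mt
  rw [← Finset.card_union_of_disjoint]
  · congr 1
    ext z
    simp only [Finset.mem_filter, Finset.mem_union, Finset.mem_compl]
    constructor
    · rintro ⟨hz, w, hzw, he⟩
      by_cases hw : w ∈ W
      · exact Or.inl ⟨hz, w, hw, hzw, he⟩
      · exact Or.inr ⟨hz, w, hw, hzw, he⟩
    · rintro (⟨hz, w, _, hzw, he⟩ | ⟨hz, w, _, hzw, he⟩)
      · exact ⟨hz, w, hzw, he⟩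
      · exact ⟨hz, w, hzw, he⟩
  · rw [Finset.disjoint_left]
    intro z hz hz'
    rw [Finset.mem_filter] at hz hz'
    obtain ⟨_, w, hw, hzw, he⟩ := hz
    obtain ⟨_, w', hw', hzw', he'⟩ := hz'
    have := hc.2 _ _ _ hzw hzw' (he.trans he'.symm)
    rw [this] at hw
    exact (Finset.mem_compl.1 hw') hw

theorem BL7_nXu {V : Type} [Fintype V] (G : SimpleGraph V) (c : Sym2 V → ℕ)
    (X Q : Finset V) (h : Disjoint X Q) (κ : ℕ) :
    nX G c (X ∪ Q) κ = nX G c X κ + nX G c Q κ := by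
  unfold nX
  rw [Finset.filter_union, Finset.card_union_of_disjoint]
  exact Finset.disjoint_filter_filter h

theorem BL7_mis {V : Type} [Fintype V] (G : SimpleGraph V) (c : Sym2 V → ℕ)
    (Q : Finset V) (κ : ℕ) : nX G c Q κ + mis G c Q κ = Q.card := by
  unfold nX mis
  exact Finset.card_filter_add_card_filter_not _

/-- The number of colours on the edges from `z` to `W`. -/
theorem BL7_cols {V : Type} [Fintype V] (G : SimpleGraph V) (D : ℕ) (c : Sym2 V → ℕ)
    (hc : PEC G D c) (W : Finset V) (z : V) :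
    ((Finset.range D).filter fun κ => ∃ w ∈ W, G.Adj z w ∧ c s(z, w) = κ).card = dgs G W z := by
  unfold dgs
  have : ((Finset.range D).filter fun κ => ∃ w ∈ W, G.Adj z w ∧ c s(z, w) = κ) =
      (W.filter fun w => G.Adj z w).image fun w => c s(z, w) := by
    ext κ
    simp only [Finset.mem_filter, Finset.mem_range, Finset.mem_image]
    constructor
    · rintro ⟨_, w, hw, hzw, he⟩
      exact ⟨w, ⟨hw, hzw⟩, he⟩
    · rintro ⟨w, ⟨hw, hzw⟩, he⟩
      exact ⟨he ▸ hc.1 _ _ hzw, w, hw, hzw, he⟩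
  rw [this, Finset.card_image_of_injOn]
  intro w hw w' hw' he
  rw [Finset.mem_coe, Finset.mem_filter] at hw hw'
  exact hc.2 _ _ _ hw.2 hw'.2 he

theorem BL7_dc {α β : Type} (s : Finset α) (t : Finset β) (R : α → β → Prop)
    (d : ∀ a, DecidablePred fun b => R a b) (d' : ∀ b, DecidablePred fun a => R a b) :
    ∑ a ∈ s, (@Finset.filter β (fun b => R a b) (d a) t).card =
      ∑ b ∈ t, (@Finset.filter α (fun a => R a b) (d' b) s).card := by
  have e1 : ∀ a, (@Finset.filter β (fun b => R a b) (d a) t).card =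
      ∑ b ∈ t, @ite ℕ (R a b) (propDecidable _) 1 0 := by
    intro a
    rw [Finset.card_filter]
    refine Finset.sum_congr rfl fun b _ => ?_
    by_cases h : R a b <;> simp [h]
  have e2 : ∀ b, (@Finset.filter α (fun a => R a b) (d' b) s).card =
      ∑ a ∈ s, @ite ℕ (R a b) (propDecidable _) 1 0 := by
    intro b
    rw [Finset.card_filter]
    refine Finset.sum_congr rfl fun a _ => ?_
    by_cases h : R a b <;> simp [h]
  rw [Finset.sum_congr rfl fun a _ => e1 a, Finset.sum_congr rfl fun b _ => e2 b]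
  exact Finset.sum_comm

theorem BL7_summt {V : Type} [Fintype V] (G : SimpleGraph V) (D : ℕ) (c : Sym2 V → ℕ)
    (hc : PEC G D c) (A W : Finset V) :
    ∑ κ ∈ Finset.range D, BL7_mt G c A W κ = ep G A W := by
  unfold BL7_mt ep
  exact (BL7_dc (Finset.range D) A (fun κ z => ∃ w ∈ W, G.Adj z w ∧ c s(z, w) = κ) _ _).trans
    (Finset.sum_congr rfl fun z _ => BL7_cols G D c hc W z)

theorem BL7_summis (hs : SCN_stmt) {V : Type} [Fintype V] (G : SimpleGraph V) (D : ℕ)
    (c : Sym2 V → ℕ) (hc : PEC G D c) (Q : Finset V) :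
    ∑ κ ∈ Finset.range D, mis G c Q κ = ∑ z ∈ Q, (D - dg G z) := by
  unfold mis
  refine (BL7_dc (Finset.range D) Q (fun κ z => ¬ has G c z κ) _
    (fun z κ => instDecidableNot)).trans ?_
  refine Finset.sum_congr rfl fun z _ => ?_
  have e' : ((Finset.range D).filter fun i => has G c z i).card +
      ((Finset.range D).filter fun i => ¬ has G c z i).card =
      (Finset.range D).card := Finset.card_filter_add_card_filter_not _
  rw [Finset.card_range, hs V G D c hc z] at e'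
  omega

theorem BL7 (h0 : BL0_stmt) (h1 : BL1_stmt) (h3 : BL3_stmt) (h6 : BL6_stmt) (hs : SCN_stmt) :
    BL7_stmt := by
  intro V _ K X D p x0 y0 r B c α hB hG hM
  have hbco := hM.bco
  have hpec := hbco.pec
  have hr : 0 < r := by
    have h1 := hB.rB
    have h2 := hB.B1
    nlinarith
  have hB1 := hB.B1
  have hx0y0 : x0 ≠ y0 := hB.adj.ne
  have hadj : ∀ v w, (Kd K x0 y0).Adj v w ↔ K.Adj v w ∧ s(v, w) ≠ s(x0, y0) := by
    intro v w
    simp [Kd, SimpleGraph.deleteEdges_adj]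
  have hle : ∀ v w, (Kd K x0 y0).Adj v w → K.Adj v w := fun v w h => ((hadj v w).1 h).1
  -- (1)
  have hy0 : has (Kd K x0 y0) c y0 α := (h1 V K X D p x0 y0 r B c α hB hG hbco).1
  have hy0Q : y0 ∈ Qs K X x0 y0 c α := by
    simp only [Qs, Finset.mem_filter, Finset.mem_univ, true_and]
    exact ⟨hB.y0Y, hy0⟩
  obtain ⟨hαΓ, _, _⟩ := h3 V K X D p x0 y0 r B c α hB hG hbco
  obtain ⟨hΓcard, hΓ⟩ := h6 V K X D p x0 y0 r B c α hB hG hM
  have hind : ∀ v ∈ X, ∀ w ∈ X, ¬ (Kd K x0 y0).Adj v w := fun v hv w hw h =>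
    hB.ind v hv w hw (hle _ _ h)
  have hnX : ∀ γ ∈ Gst K X D x0 y0 c α, nX (Kd K x0 y0) c X γ + 1 = (Qs K X x0 y0 c α).card := by
    intro γ hγ
    have hγΓ : γ ∈ Gam K X D x0 y0 c := (Finset.mem_filter.1 hγ).1
    obtain ⟨hγD, hγx, hγy, hγo⟩ := Finset.mem_filter.1 hγΓ
    have e2 : nX (Kd K x0 y0) c X γ = ((Qs K X x0 y0 c α).erase y0).card := by
      have e := BL7_bij (Kd K x0 y0) D c hpec X Xᶜ γ
      have e' : nX (Kd K x0 y0) c X γ = BL7_mt (Kd K x0 y0) c X Xᶜ γ := by
        unfold nX BL7_mt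
        refine BL7_fc _ _ _ _ _ _ fun x => ?_
        constructor
        · rintro ⟨hx, w, hw, he⟩
          refine ⟨hx, w, ?_, hw, he⟩
          rw [Finset.mem_compl]
          exact fun hwX => hind x hx w hwX hw
        · rintro ⟨hx, w, _, hw, he⟩
          exact ⟨hx, w, hw, he⟩
      rw [e', e]
      unfold BL7_mt
      congr 1
      ext z
      simp only [Finset.mem_filter, Finset.mem_compl, Finset.mem_erase, Qs, Finset.mem_univ,
        true_and]
      constructor
      · rintro ⟨hz, v, hv, hzv, he⟩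
        have hzy : z ≠ y0 := by
          rintro rfl
          exact hγy ⟨v, hzv, he⟩
        exact ⟨hzy, hz, (hΓ γ hγ z hz hzy).1 ⟨v, hzv, he⟩⟩
      · rintro ⟨hzy, hz, hα⟩
        obtain ⟨v, hzv, he⟩ := (hΓ γ hγ z hz hzy).2 hα
        refine ⟨hz, v, ?_, hzv, he⟩
        by_contra hvX
        exact hγo z v hzv hz hvX he
    rw [e2]
    exact Finset.card_erase_add_one hy0Q
  have hΓpos : 0 < (Gst K X D x0 y0 c α).card := by
    have : (0 : ℝ) < (Gst K X D x0 y0 c α).card := by nlinarith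
    exact_mod_cast this
  obtain ⟨γ0, hγ0⟩ := Finset.card_pos.1 hΓpos
  have hpar : ((Qs K X x0 y0 c α).card + p) % 2 = 1 := by
    have hγΓ : γ0 ∈ Gam K X D x0 y0 c := (Finset.mem_filter.1 hγ0).1
    have hγα : γ0 ≠ α := fun h => hαΓ (h ▸ hγΓ)
    have hγD : γ0 < D := Finset.mem_range.1 (Finset.mem_filter.1 hγΓ).1
    have h1 := hbco.par γ0 hγD hγα
    have h2 := hnX γ0 hγ0
    omega
  -- the bound for `Q`
  have hep : ep (Kd K x0 y0) X Xᶜ ≤ ep K X Xᶜ := by
    unfold ep dgs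
    refine Finset.sum_le_sum fun v _ => Finset.card_le_card ?_
    intro w hw
    simp only [Finset.mem_filter] at hw ⊢
    exact ⟨hw.1, hle _ _ hw.2⟩
  have hq1 : 1 ≤ (Qs K X x0 y0 c α).card := Finset.card_pos.2 ⟨y0, hy0Q⟩
  have hQle : ((Qs K X x0 y0 c α).card : ℝ) ≤ 2 * B := by
    have hsum := h0 V (Kd K x0 y0) X D c hind hpec
    have hsub : Gst K X D x0 y0 c α ⊆ Finset.range D := fun i hi =>
      (Finset.mem_filter.1 (Finset.mem_filter.1 hi).1).1
    have hs2 : ∑ i ∈ Gst K X D x0 y0 c α, nX (Kd K x0 y0) c X i ≤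
        ∑ i ∈ Finset.range D, nX (Kd K x0 y0) c X i :=
      Finset.sum_le_sum_of_subset hsub
    have hs3 : ∑ i ∈ Gst K X D x0 y0 c α, nX (Kd K x0 y0) c X i =
        (Gst K X D x0 y0 c α).card * ((Qs K X x0 y0 c α).card - 1) := by
      apply Finset.sum_const_nat
      intro i hi
      have := hnX i hi
      omega
    have hs4 : (Gst K X D x0 y0 c α).card * ((Qs K X x0 y0 c α).card - 1) ≤ ep K X Xᶜ := by
      rw [← hs3]
      exact hs2.trans (hsum.le.trans hep)
    have hs5 : ((Gst K X D x0 y0 c α).card : ℝ) * ((Qs K X x0 y0 c α).card - 1) ≤ B * r := by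
      have h : (((Gst K X D x0 y0 c α).card * ((Qs K X x0 y0 c α).card - 1) : ℕ) : ℝ) ≤
          (ep K X Xᶜ : ℝ) := by exact_mod_cast hs4
      rw [Nat.cast_mul, Nat.cast_sub hq1, Nat.cast_one] at h
      exact h.trans hB.tot
    have hq2 : (0 : ℝ) ≤ (Qs K X x0 y0 c α).card - 1 := by
      have : (1 : ℝ) ≤ (Qs K X x0 y0 c α).card := by exact_mod_cast hq1
      linarith
    have hs6 : 17 / 10 * r * ((Qs K X x0 y0 c α).card - 1) ≤ B * r :=
      (mul_le_mul_of_nonneg_right hΓcard hq2).trans hs5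
    have hs7 : 17 / 10 * (((Qs K X x0 y0 c α).card : ℝ) - 1) ≤ B := by
      by_contra hcon
      push Not at hcon
      nlinarith
    linarith
  refine ⟨hpar, hQle, ?_⟩
  -- (2)
  set Q := Qs K X x0 y0 c α with hQ
  set W := X ∪ Q with hW
  have hQX : ∀ z ∈ Q, z ∉ X := fun z hz => by
    rw [hQ, Qs, Finset.mem_filter] at hz
    exact hz.2.1
  have hdisj : Disjoint X Q := Finset.disjoint_left.2 fun z hz hz' => hQX z hz' hz
  have hVio : ∀ κ, (Vio K X x0 y0 c α κ).card =
      mis (Kd K x0 y0) c Q κ + BL7_mt (Kd K x0 y0) c Wᶜ W κ := by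
    intro κ
    unfold Vio
    rw [Finset.card_union_of_disjoint]
    · congr 1
      · unfold mis
        refine BL7_fc _ _ _ _ _ _ fun z => ?_
        simp only [Finset.mem_univ, true_and]
        rfl
      · unfold BL7_mt
        refine BL7_fc _ _ _ _ _ _ fun z => ?_
        simp only [Finset.mem_univ, true_and, Finset.mem_compl, hW,
          Finset.mem_union, not_or, and_assoc]
        rfl
    · rw [Finset.disjoint_left]
      intro z hz hz'
      simp only [Finset.mem_filter, Finset.mem_univ, true_and] at hz hz'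
      exact hz'.2.1 hz.1
  have hodd : ∀ κ < D, κ ≠ α → (Vio K X x0 y0 c α κ).card % 2 = 1 := by
    intro κ hκ hκα
    rw [hVio κ]
    have e1 := BL7_even (Kd K x0 y0) D c hpec W κ
    have e2 := BL7_bij (Kd K x0 y0) D c hpec W Wᶜ κ
    have e3 := BL7_split (Kd K x0 y0) D c hpec W κ
    have e4 := BL7_nXu (Kd K x0 y0) c X Q hdisj κ
    have e5 := BL7_mis (Kd K x0 y0) c Q κ
    have e6 := hbco.par κ hκ hκα
    rw [← hW] at e4
    omega
  -- (3)
  have hVα : (Vio K X x0 y0 c α α).card = 0 := by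
    rw [hVio α, Nat.add_eq_zero_iff]
    constructor
    · unfold mis
      rw [Finset.card_eq_zero]
      refine Finset.eq_empty_of_forall_notMem fun z hz => ?_
      simp only [Finset.mem_filter, hQ, Qs] at hz
      exact hz.2 hz.1.2.2
    · unfold BL7_mt
      rw [Finset.card_eq_zero]
      refine Finset.eq_empty_of_forall_notMem fun z hz => ?_
      simp only [Finset.mem_filter, Finset.mem_compl, hW, Finset.mem_union, not_or] at hz
      obtain ⟨⟨hz1, hz2⟩, w, _, hzw, he⟩ := hz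
      apply hz2
      rw [hQ, Qs, Finset.mem_filter]
      exact ⟨Finset.mem_univ _, hz1, w, hzw, he⟩
  have hsumV : ∑ κ ∈ Finset.range D, (Vio K X x0 y0 c α κ).card =
      ∑ z ∈ Q, (D - dg (Kd K x0 y0) z) + ep (Kd K x0 y0) Wᶜ W := by
    rw [← BL7_summis hs (Kd K x0 y0) D c hpec Q, ← BL7_summt (Kd K x0 y0) D c hpec Wᶜ W,
      ← Finset.sum_add_distrib]
    exact Finset.sum_congr rfl fun κ _ => hVio κ
  have hx0W : x0 ∈ W := Finset.mem_union_left _ hB.x0X
  have hy0W : y0 ∈ W := Finset.mem_union_right _ hy0Q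
  have hepW : ep (Kd K x0 y0) Wᶜ W = ep K Wᶜ W := by
    unfold ep dgs
    refine Finset.sum_congr rfl fun z hz => ?_
    refine BL7_fc _ _ _ _ _ _ fun w => ?_
    rw [hadj]
    have hz' := Finset.mem_compl.1 hz
    constructor
    · exact fun h => ⟨h.1, h.2.1⟩
    · intro h
      refine ⟨h.1, h.2, fun he => ?_⟩
      rw [Sym2.eq_iff] at he
      rcases he with ⟨h1, _⟩ | ⟨h1, _⟩
      · exact hz' (h1 ▸ hx0W)
      · exact hz' (h1 ▸ hy0W)
  have hdgz : ∀ z, z ≠ x0 → z ≠ y0 → dg (Kd K x0 y0) z = dg K z := by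
    intro z hzx hzy
    unfold dg dgs
    refine BL7_fc _ _ _ _ _ _ fun w => ?_
    rw [hadj]
    constructor
    · exact fun h => ⟨h.1, h.2.1⟩
    · intro h
      refine ⟨h.1, h.2, fun he => ?_⟩
      rw [Sym2.eq_iff] at he
      rcases he with ⟨h1, _⟩ | ⟨h1, _⟩
      · exact hzx h1
      · exact hzy h1
  have hdgy : dg (Kd K x0 y0) y0 + 1 = dg K y0 := by
    have e : dg (Kd K x0 y0) y0 = ((Finset.univ.filter fun w => K.Adj y0 w).erase x0).card := by
      unfold dg dgs
      congr 1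
      ext w
      simp only [Finset.mem_filter, Finset.mem_univ, true_and, Finset.mem_erase]
      rw [hadj]
      constructor
      · rintro ⟨h1, h2⟩
        refine ⟨?_, h1⟩
        rintro rfl
        exact h2 Sym2.eq_swap
      · rintro ⟨h1, h2⟩
        refine ⟨h2, fun he => ?_⟩
        rw [Sym2.eq_iff] at he
        rcases he with ⟨h3, _⟩ | ⟨_, h3⟩
        · exact hx0y0 h3.symm
        · exact h1 h3
    rw [e]
    refine Finset.card_erase_add_one ?_
    simp only [Finset.mem_filter, Finset.mem_univ, true_and]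
    exact hB.adj.symm
  have hsumQ : ∑ z ∈ Q, (D - dg (Kd K x0 y0) z) = ∑ z ∈ Q, (D - dg K z) + 1 := by
    rw [← Finset.add_sum_erase Q (fun z => D - dg (Kd K x0 y0) z) hy0Q,
      ← Finset.add_sum_erase Q (fun z => D - dg K z) hy0Q]
    have e1 : ∑ z ∈ Q.erase y0, (D - dg (Kd K x0 y0) z) = ∑ z ∈ Q.erase y0, (D - dg K z) := by
      refine Finset.sum_congr rfl fun z hz => ?_
      rw [Finset.mem_erase] at hz
      rw [hdgz z (fun h => hQX z hz.2 (h ▸ hB.x0X)) hz.1]
    rw [e1]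
    have e2 := hB.deg y0
    have e3 := hdgy
    omega
  -- (4)
  by_cases hex : ∃ κ < D, κ ≠ α ∧ 3 ≤ (Vio K X x0 y0 c α κ).card
  · exact Or.inl hex
  right
  push Not at hex
  have hone : ∀ κ ∈ (Finset.range D).erase α, (Vio K X x0 y0 c α κ).card = 1 := by
    intro κ hκ
    rw [Finset.mem_erase, Finset.mem_range] at hκ
    have e1 := hex κ hκ.2 hκ.1
    have e2 := hodd κ hκ.2 hκ.1
    omega
  have hlt := hbco.lt
  have hsum2 : ∑ κ ∈ Finset.range D, (Vio K X x0 y0 c α κ).card = D - 1 := by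
    rw [← Finset.add_sum_erase _ (fun κ => (Vio K X x0 y0 c α κ).card) (Finset.mem_range.2 hlt)]
    rw [hVα, Finset.sum_congr rfl hone, Finset.sum_const,
      Finset.card_erase_of_mem (Finset.mem_range.2 hlt), Finset.card_range]
    simp
  rw [hsumV, hsumQ, hepW] at hsum2
  omega

end

end Pool.Agent.OF
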